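import Mathlib

set_option autoImplicit false

/-! Topological Ramsey spaces (Todorcevic's axioms), codes for `G_δ` Ramsey positive sets and
`Σ¹₂`-completeness. -/

open MeasureTheory Topology

namespace Pool.Agent.R552.TRS

/-- The data `(R, ≤, r)` together with the finitization relation `≤_fin`. -/
structure Data where
  /-- the space -/
  R : Type
  /-- the countable set of finite approximations -/
  AR : Type
  /-- the relation `A ≤ B` -/
  le : R → R → Prop
  /-- `r n A` is the `n`-th approximation of `A` -/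
  r : ℕ → R → AR
  /-- the relation `a ≤_fin b` -/
  leFin : AR → AR → Prop

namespace Data

variable (T : Data)

/-- `s ⊑ A`: `s` is an approximation of `A` -/
def Init (s : T.AR) (A : T.R) : Prop := ∃ n, s = T.r n A

/-- `s ⊑ t` for approximations -/
def InitA (s t : T.AR) : Prop := ∃ (A : T.R) (m n : ℕ), m ≤ n ∧ s = T.r m A ∧ t = T.r n A

/-- the basic set `[s, A]` -/
def basic (s : T.AR) (A : T.R) : Set T.R := {B | T.Init s B ∧ T.le B A}

/-- `a` has length `n` -/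
def Len (a : T.AR) (n : ℕ) : Prop := ∃ A, a = T.r n A

/-- `depth_B a = n`: `n` is least with `a ≤_fin r_n(B)` -/
def Depth (B : T.R) (a : T.AR) (n : ℕ) : Prop :=
  T.leFin a (T.r n B) ∧ ∀ m < n, ¬ T.leFin a (T.r m B)

/-- Todorcevic's axioms A.1 - A.4, and that the space is nonempty and closed in `AR^ω`. -/
structure IsTopologicalRamseySpace : Prop where
  nonempty : Nonempty T.R
  countable : Countable T.AR
  surj : ∀ a : T.AR, ∃ n, T.Len a n
  refl : ∀ A, T.le A A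
  trans : ∀ A B C, T.le A B → T.le B C → T.le A C
  -- A.1 (sequencing)
  a1_zero : ∀ A B, T.r 0 A = T.r 0 B
  a1_ne : ∀ A B, A ≠ B → ∃ n, T.r n A ≠ T.r n B
  a1_eq : ∀ A B n m, T.r n A = T.r m B → n = m ∧ ∀ k < n, T.r k A = T.r k B
  -- A.2 (finitization)
  fin_refl : ∀ a, T.leFin a a
  fin_trans : ∀ a b c, T.leFin a b → T.leFin b c → T.leFin a c
  a2_fin : ∀ b, {a | T.leFin a b}.Finite
  a2_le : ∀ A B, T.le A B ↔ ∀ n, ∃ m, T.leFin (T.r n A) (T.r m B)
  a2_init : ∀ a b c, T.InitA a b → T.leFin b c → ∃ d, T.InitA d c ∧ T.leFin a d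
  -- A.3 (amalgamation)
  a3_one : ∀ B a n, T.Depth B a n → ∀ A ∈ T.basic (T.r n B) B, (T.basic a A).Nonempty
  a3_two : ∀ A B a, T.le A B → (T.basic a A).Nonempty → ∃ n, T.Depth B a n ∧
    ∃ A' ∈ T.basic (T.r n B) B, (T.basic a A').Nonempty ∧ T.basic a A' ⊆ T.basic a A
  -- A.4 (pigeonhole)
  a4 : ∀ B a n l (O : Set T.AR), T.Depth B a n → T.Len a l → (∀ b ∈ O, T.Len b (l + 1)) →
    ∃ A ∈ T.basic (T.r n B) B, (∀ C ∈ T.basic a A, T.r (l + 1) C ∈ O) ∨
      (∀ C ∈ T.basic a A, T.r (l + 1) C ∉ O)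
  -- the space is closed in `AR^ω`
  closed : ∀ a : ℕ → T.AR, (∀ n, ∃ A, ∀ k < n, T.r k A = a k) → ∃ A, ∀ k, T.r k A = a k

/-- `X` is Ramsey null: every nonempty `[s, A]` contains some `B` with `[s, B] ∩ X = ∅`. -/
def RamseyNull (X : Set T.R) : Prop :=
  ∀ s A, (T.basic s A).Nonempty → ∃ B ∈ T.basic s A, T.basic s B ∩ X = ∅

/-- `X ⊆ AR` is a `⊑`-tree -/
def IsTree (X : Set T.AR) : Prop := ∀ s t, T.InitA s t → t ∈ X → s ∈ X

/-- the set `[X]` of the branches of `X` -/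
def branches (X : Set T.AR) : Set T.R := {A | ∀ k, T.r k A ∈ X}

/-- the `n`-th set coded by `x`, for an injective coding `e : AR → ℕ` -/
def coded (e : T.AR → ℕ) (x : ℕ → Bool) (n : ℕ) : Set T.AR := {a | x (Nat.pair n (e a)) = true}

/-- the `G_δ` set `G_x` coded by `x` -/
def gdelta (e : T.AR → ℕ) (x : ℕ → Bool) : Set T.R :=
  {A | (∀ n, T.IsTree (T.coded e x n)) ∧ ∀ n, A ∉ T.branches (T.coded e x n)}

/-- the set of codes for `G_δ` Ramsey positive sets -/
def codes (e : T.AR → ℕ) : Set (ℕ → Bool) := {x | ¬ T.RamseyNull (T.gdelta e x)}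

end Data

/-- `Σ¹₂` subsets of the Cantor space: projections of complements of analytic sets. -/
def IsSigma12 (S : Set (ℕ → Bool)) : Prop :=
  ∃ Q : Set ((ℕ → Bool) × (ℕ → ℕ)), AnalyticSet Q ∧ S = {x | ∃ y, (x, y) ∉ Q}

/-- `Σ¹₂`-complete sets -/
def IsSigma12Complete (C : Set (ℕ → Bool)) : Prop :=
  IsSigma12 C ∧ ∀ S, IsSigma12 S → ∃ f : (ℕ → Bool) → (ℕ → Bool), Continuous f ∧ S = f ⁻¹' C

end Pool.Agent.R552.TRS
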