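import Pool.Agent.R552.TRS.Defs
import Pool.Agent.H534R3.NonBorel

set_option autoImplicit false

/-! The Baire space with the pointwise order as a topological Ramsey space. -/

open MeasureTheory Topology Set

namespace Pool.Agent.R552.TRS

open Pool.Agent.H534R3.NonBorel (br length_br br_eq_iff Clique clique_not_measurable)

theorem getD_br (A : ℕ → ℕ) (n i : ℕ) : (br A n).getD i 0 = if i < n then A i else 0 := by
  unfold br
  rw [List.getD_eq_getElem?_getD, List.getElem?_map]
  by_cases h : i < n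
  · simp [h]
  · simp [h]

theorem eq_br (a : List ℕ) (A : ℕ → ℕ) (h : ∀ i < a.length, A i = a.getD i 0) : a = br A a.length := by
  apply List.ext_getElem
  · simp
  · intro i h1 h2
    have := h i h1
    simp only [br, List.getElem_map, List.getElem_range]
    rw [this, List.getD_eq_getElem _ _ h1]

/-- the space `ℕ^ℕ` with the pointwise order -/
def B : Data where
  R := ℕ → ℕ
  AR := List ℕ
  le A C := ∀ i, A i ≤ C i
  r n A := br A n
  leFin a b := a.length = b.length ∧ ∀ i, a.getD i 0 ≤ b.getD i 0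

theorem B_le (A C : ℕ → ℕ) : B.le A C ↔ ∀ i, A i ≤ C i := Iff.rfl
theorem B_r (n : ℕ) (A : ℕ → ℕ) : B.r n A = br A n := rfl
theorem B_fin (a b : List ℕ) : B.leFin a b ↔ a.length = b.length ∧ ∀ i, a.getD i 0 ≤ b.getD i 0 := Iff.rfl

theorem mem_basic (s : List ℕ) (A C : ℕ → ℕ) :
    C ∈ B.basic s A ↔ s = br C s.length ∧ ∀ i, C i ≤ A i := by
  constructor
  · rintro ⟨⟨n, hn⟩, h⟩
    rw [B_r] at hn
    refine ⟨?_, h⟩
    conv_rhs => rw [hn, length_br]
    exact hn
  · rintro ⟨h1, h2⟩
    exact ⟨⟨s.length, h1⟩, h2⟩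

theorem depth_iff (C : ℕ → ℕ) (a : List ℕ) (n : ℕ) :
    B.Depth C a n ↔ n = a.length ∧ ∀ i < a.length, a.getD i 0 ≤ C i := by
  constructor
  · rintro ⟨⟨h1, h2⟩, _⟩
    rw [B_r, length_br] at h1
    refine ⟨h1.symm, fun i hi => ?_⟩
    have := h2 i
    rw [B_r, getD_br, if_pos (h1 ▸ hi)] at this
    exact this
  · rintro ⟨rfl, h⟩
    refine ⟨⟨by rw [B_r, length_br], fun i => ?_⟩, fun m hm hf => ?_⟩
    · rw [B_r, getD_br]
      split_ifs with hi
      · exact h i hi
      · rw [List.getD_eq_default _ _ (not_lt.mp hi)]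
    · have := hf.1
      rw [B_r, length_br] at this
      omega

theorem a4_aux (C : ℕ → ℕ) (a : List ℕ) (n l : ℕ) (O : Set (List ℕ)) (h : B.Depth C a n)
    (hl : B.Len a l) : ∃ A ∈ B.basic (B.r n C) C, (∀ D ∈ B.basic a A, B.r (l + 1) D ∈ O) ∨
      (∀ D ∈ B.basic a A, B.r (l + 1) D ∉ O) := by
  rw [depth_iff] at h
  obtain ⟨rfl, h⟩ := h
  obtain ⟨X, hX⟩ := hl
  have hll : l = a.length := by rw [hX, B_r, length_br]
  subst hll
  refine ⟨(fun i => if i = a.length then 0 else C i), ?_, ?_⟩
  · refine (mem_basic (br C a.length) _ _).mpr ⟨?_, fun i => ?_⟩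
    · rw [length_br]
      exact (br_eq_iff _ _ _).mpr fun i hi => by rw [if_neg (by omega)]
    · split_ifs
      · exact Nat.zero_le _
      · exact le_rfl
  · have key : ∀ D ∈ B.basic a (fun i => if i = a.length then 0 else C i),
        br D (a.length + 1) = a ++ [0] := by
      intro D hD
      obtain ⟨h1, h2⟩ := (mem_basic _ _ _).mp hD
      have h3 := h2 a.length
      rw [if_pos rfl] at h3
      have e : br D (a.length + 1) = br D a.length ++ [D a.length] := by
        simp [br, List.range_succ]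
      rw [e, ← h1, Nat.le_zero.mp h3]
    by_cases hmem : (a ++ [0]) ∈ O
    · left
      intro D hD
      have := key D hD
      rw [B_r, this]; exact hmem
    · right
      intro D hD
      have := key D hD
      rw [B_r, this]; exact hmem

theorem B_trs : B.IsTopologicalRamseySpace where
  nonempty := ⟨(fun _ => 0 : ℕ → ℕ)⟩
  countable := inferInstanceAs (Countable (List ℕ))
  surj a := ⟨List.length (α := ℕ) a, (fun i => List.getD a i 0 : ℕ → ℕ), eq_br a _ fun _ _ => rfl⟩
  refl A i := le_rfl
  trans A C D h1 h2 i := (h1 i).trans (h2 i)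
  a1_zero A C := rfl
  a1_ne A C h := by
    obtain ⟨i, hi⟩ := Function.ne_iff.mp h
    exact ⟨i + 1, fun h' => hi ((br_eq_iff A C (i + 1)).mp h' i (Nat.lt_succ_self i))⟩
  a1_eq A C n m h := by
    have h1 : n = m := by
      have := congrArg (List.length (α := ℕ)) h
      simpa [B_r] using this
    subst h1
    exact ⟨rfl, fun k hk => (br_eq_iff A C k).mpr fun i hi => (br_eq_iff A C n).mp h i (hi.trans hk)⟩
  fin_refl a := ⟨rfl, fun _ => le_rfl⟩
  fin_trans a b c h1 h2 := ⟨h1.1.trans h2.1, fun i => (h1.2 i).trans (h2.2 i)⟩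
  a2_fin b := by
    have hfin : (Set.pi (univ : Set (Fin (List.length b))) (fun i => Set.Iic (List.getD b i 0))).Finite :=
      Set.Finite.pi fun i => Set.finite_Iic _
    refine (hfin.image (fun f => List.ofFn f)).subset ?_
    rintro a ⟨h1, h2⟩
    refine ⟨fun i => List.getD a i 0, fun i _ => h2 i, ?_⟩
    apply List.ext_getElem
    · simp [h1]
    · intro i hi1 hi2
      simp only [List.getElem_ofFn]
      rw [List.getD_eq_getElem _ _ hi2]
  a2_le A C := by
    constructor
    · intro h n
      refine ⟨n, by rw [B_r, B_r, length_br, length_br], fun i => ?_⟩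
      rw [B_r, B_r, getD_br, getD_br]
      split_ifs
      · exact h i
      · exact le_rfl
    · intro h i
      obtain ⟨m, h1, h2⟩ := h (i + 1)
      rw [B_r, B_r, length_br, length_br] at h1
      have := h2 i
      rw [B_r, B_r, getD_br, getD_br, if_pos (Nat.lt_succ_self i), if_pos (by omega)] at this
      exact this
  a2_init a b c h1 h2 := by
    obtain ⟨A, m, n, hmn, ha, hb⟩ := h1
    obtain ⟨h3, h4⟩ := h2
    have hc : c = br (fun i => List.getD c i 0) (List.length c) := eq_br c _ fun _ _ => rfl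
    have hlen : List.length c = n := by rw [← h3, hb, B_r, length_br]
    refine ⟨br (fun i => List.getD c i 0) m, ⟨(fun i => List.getD c i 0), m, n, hmn, rfl, ?_⟩, ?_, ?_⟩
    · rw [hlen] at hc; exact hc
    · rw [ha, B_r, length_br, length_br]
    · intro i
      rw [ha, B_r, getD_br, getD_br]
      split_ifs with hi
      · have := h4 i
        rw [hb, B_r, getD_br, if_pos (hi.trans_le hmn)] at this
        exact this
      · exact le_rfl
  a3_one C a n h A hA := by
    rw [depth_iff] at h
    obtain ⟨rfl, h⟩ := h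
    rw [B_r] at hA
    obtain ⟨h1, h2⟩ := (mem_basic _ _ _).mp hA
    rw [length_br, br_eq_iff] at h1
    refine ⟨(fun i => if i < List.length a then List.getD a i 0 else A i), (mem_basic _ _ _).mpr ⟨?_, ?_⟩⟩
    · exact eq_br a _ fun i hi => if_pos hi
    · intro i
      split_ifs with hi
      · rw [← h1 i hi]; exact h i hi
      · exact le_rfl
  a3_two A C a hAC hne := by
    obtain ⟨D, hD⟩ := hne
    obtain ⟨h1, h2⟩ := (mem_basic _ _ _).mp hD
    have ha : ∀ i < List.length a, List.getD a i 0 = D i := by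
      intro i hi
      conv_lhs => rw [h1]
      rw [getD_br, if_pos hi]
    refine ⟨List.length a, (depth_iff _ _ _).mpr ⟨rfl, fun i hi => ?_⟩,
      (fun i => if i < List.length a then C i else A i), ?_, ?_, ?_⟩
    · rw [ha i hi]; exact (h2 i).trans (hAC i)
    · refine (mem_basic (br C (List.length a)) _ _).mpr ⟨?_, fun i => ?_⟩
      · rw [length_br]
        exact (br_eq_iff _ _ _).mpr fun i hi => by rw [if_pos hi]
      · split_ifs
        · exact le_rfl
        · exact hAC i
    · refine ⟨D, (mem_basic _ _ _).mpr ⟨h1, fun i => ?_⟩⟩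
      split_ifs
      · exact (h2 i).trans (hAC i)
      · exact h2 i
    · intro F hF
      obtain ⟨h3, h4⟩ := (mem_basic _ _ _).mp hF
      refine (mem_basic _ _ _).mpr ⟨h3, fun i => ?_⟩
      by_cases hi : i < List.length a
      · have e1 : List.getD a i 0 = F i := by
          conv_lhs => rw [h3]
          rw [getD_br, if_pos hi]
        rw [← e1, ha i hi]
        exact h2 i
      · have := h4 i
        rw [if_neg hi] at this
        exact this
  a4 C a n l O h hl hO := a4_aux C a n l O h hl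
  closed a h := by
    refine ⟨(fun i => List.getD (a (i + 1)) i 0), fun k => ?_⟩
    obtain ⟨A, hA⟩ := h (k + 1)
    rw [← hA k (Nat.lt_succ_self k)]
    refine (br_eq_iff _ A k).mpr fun i hi => ?_
    rw [← hA (i + 1) (by omega), B_r, getD_br, if_pos (Nat.lt_succ_self i)]

/-- `s` continued by zeros -/
def ext0 (s : List ℕ) : ℕ → ℕ := fun i => s.getD i 0

theorem ext0_mem (s : List ℕ) : ext0 s ∈ B.basic s (ext0 s) :=
  (mem_basic _ _ _).mpr ⟨eq_br s _ fun _ _ => rfl, fun _ => le_rfl⟩

theorem basic_ext0 (s : List ℕ) {C : ℕ → ℕ} (h : C ∈ B.basic s (ext0 s)) : C = ext0 s := by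
  obtain ⟨h1, h2⟩ := (mem_basic _ _ _).mp h
  funext i
  by_cases hi : i < s.length
  · have e1 : s.getD i 0 = C i := by
      conv_lhs => rw [h1]
      rw [getD_br, if_pos hi]
    rw [← e1]; rfl
  · have h3 : ext0 s i = 0 := List.getD_eq_default _ _ (not_lt.mp hi)
    have := h2 i
    rw [h3] at this ⊢
    exact Nat.le_zero.mp this

theorem null_iff (X : Set (ℕ → ℕ)) : B.RamseyNull X ↔ ∀ s : List ℕ, ext0 s ∉ X := by
  constructor
  · intro h s hs
    obtain ⟨C, hC, hCX⟩ := h s (ext0 s) ⟨_, ext0_mem s⟩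
    have hC' := basic_ext0 s hC
    subst hC'
    have h3 : ext0 s ∈ B.basic s (ext0 s) ∩ X := ⟨ext0_mem s, hs⟩
    rw [hCX] at h3
    exact h3
  · rintro h s A ⟨C, hC⟩
    obtain ⟨h1, h2⟩ := (mem_basic _ _ _).mp hC
    refine ⟨ext0 s, (mem_basic _ _ _).mpr ⟨eq_br s _ fun _ _ => rfl, fun i => ?_⟩, ?_⟩
    · by_cases hi : i < List.length s
      · have e1 : List.getD s i 0 = C i := by
          conv_lhs => rw [h1]
          rw [getD_br, if_pos hi]
        show List.getD s i 0 ≤ A i
        rw [e1]; exact h2 i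
      · show List.getD s i 0 ≤ A i
        rw [List.getD_eq_default _ _ (not_lt.mp hi)]
        exact Nat.zero_le _
    · rw [Set.eq_empty_iff_forall_notMem]
      rintro D ⟨hD, hDX⟩
      rw [basic_ext0 s hD] at hDX
      exact h s hDX

theorem meas_bit (i : ℕ) (b : Bool) : MeasurableSet {x : ℕ → Bool | x i = b} :=
  Pool.Agent.H534R3.NonBorel.mset i b

theorem codes_meas (e : List ℕ → ℕ) : MeasurableSet (B.codes e) := by
  have h : B.codes e = ⋃ s : List ℕ, ({x : ℕ → Bool | ∀ n, B.IsTree (B.coded e x n)} ∩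
      ⋂ n, ⋃ k, {x : ℕ → Bool | x (Nat.pair n (e (br (ext0 s) k))) = false}) := by
    ext x
    simp only [Data.codes, Set.mem_setOf_eq, null_iff, not_forall, not_not, Set.mem_iUnion,
      Set.mem_inter_iff, Set.mem_iInter, Data.gdelta]
    refine exists_congr fun s => and_congr_right fun _ => forall_congr' fun n => ?_
    simp only [Data.branches, Set.mem_setOf_eq, not_forall]
    refine exists_congr fun k => ?_
    show ¬ (x (Nat.pair n (e (br (ext0 s) k))) = true) ↔ _
    simp
  rw [h]
  refine MeasurableSet.iUnion fun s => MeasurableSet.inter ?_ (MeasurableSet.iInter fun n =>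
    MeasurableSet.iUnion fun k => meas_bit _ _)
  have h2 : {x : ℕ → Bool | ∀ n, B.IsTree (B.coded e x n)} =
      ⋂ n, ⋂ (a : List ℕ), ⋂ (b : List ℕ), ({x : ℕ → Bool | ¬ B.InitA a b} ∪
        ({x : ℕ → Bool | x (Nat.pair n (e b)) = false} ∪ {x : ℕ → Bool | x (Nat.pair n (e a)) = true})) := by
    ext x
    simp only [Set.mem_setOf_eq, Set.mem_iInter, Set.mem_union]
    refine forall_congr' fun n => forall_congr' fun a => forall_congr' fun b => ?_
    show (B.InitA a b → x (Nat.pair n (e b)) = true → x (Nat.pair n (e a)) = true) ↔ _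
    cases hx : x (Nat.pair n (e b)) <;> simp <;> tauto
  rw [h2]
  exact MeasurableSet.iInter fun n => MeasurableSet.iInter fun a => MeasurableSet.iInter fun b =>
    (MeasurableSet.const _).union ((meas_bit _ _).union (meas_bit _ _))

theorem clique_iff (E : ℕ → Bool) : Clique E ↔ ∃ f : ℕ → ℕ, ∀ i j, i < j →
    f i < f j ∧ E (Nat.pair (f i) (f j)) = true := by
  classical
  constructor
  · rintro ⟨A, hA, h⟩
    haveI : Infinite A := hA.to_subtype
    refine ⟨fun i => Nat.orderEmbeddingOfSet A i, fun i j hij => ⟨?_, ?_⟩⟩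
    · exact (Nat.orderEmbeddingOfSet A).strictMono hij
    · have hm : ∀ i, Nat.orderEmbeddingOfSet A i ∈ A := fun i => by
        have hmem : Nat.orderEmbeddingOfSet A i ∈ Set.range (Nat.orderEmbeddingOfSet A) := ⟨i, rfl⟩
        rwa [Nat.orderEmbeddingOfSet_range] at hmem
      exact h _ (hm i) _ (hm j) ((Nat.orderEmbeddingOfSet A).strictMono hij)
  · rintro ⟨f, hf⟩
    have hmono : StrictMono f := fun i j hij => (hf i j hij).1
    refine ⟨Set.range f, Set.infinite_range_of_injective hmono.injective, ?_⟩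
    rintro _ ⟨i, rfl⟩ _ ⟨j, rfl⟩ hij
    exact (hf i j (hmono.lt_iff_lt.mp hij)).2

theorem sigma_clique : IsSigma12 {E : ℕ → Bool | Clique E} := by
  set K : Set ((ℕ → Bool) × (ℕ → ℕ)) := {p | ∀ i j, i < j →
    p.2 i < p.2 j ∧ p.1 (Nat.pair (p.2 i) (p.2 j)) = true} with hK
  have hKm : MeasurableSet K := by
    have h : K = ⋂ i, ⋂ j, ({p | ¬ i < j} ∪ ⋃ a : ℕ, ⋃ b : ℕ, ({p | p.2 i = a} ∩ {p | p.2 j = b} ∩
        {p | a < b} ∩ {p | p.1 (Nat.pair a b) = true})) := by
      ext p
      simp only [hK, Set.mem_setOf_eq, Set.mem_iInter, Set.mem_union, Set.mem_iUnion, Set.mem_inter_iff]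
      refine forall_congr' fun i => forall_congr' fun j => ?_
      constructor
      · intro h
        by_cases hij : i < j
        · right
          exact ⟨p.2 i, p.2 j, ⟨⟨rfl, rfl⟩, (h hij).1⟩, (h hij).2⟩
        · exact Or.inl hij
      · rintro (h | ⟨a, b, ⟨⟨rfl, rfl⟩, h1⟩, h2⟩) hij
        · exact absurd hij h
        · exact ⟨h1, h2⟩
    rw [h]
    have m2 : ∀ i a : ℕ, MeasurableSet {p : (ℕ → Bool) × (ℕ → ℕ) | p.2 i = a} := fun i a => by
      have h : Measurable (fun p : (ℕ → Bool) × (ℕ → ℕ) => p.2 i) :=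
        (measurable_pi_apply i).comp measurable_snd
      exact h (measurableSet_singleton a)
    have m1 : ∀ i : ℕ, MeasurableSet {p : (ℕ → Bool) × (ℕ → ℕ) | p.1 i = true} := fun i => by
      have h : Measurable (fun p : (ℕ → Bool) × (ℕ → ℕ) => p.1 i) :=
        (measurable_pi_apply i).comp measurable_fst
      exact h (measurableSet_singleton true)
    exact MeasurableSet.iInter fun i => MeasurableSet.iInter fun j => (MeasurableSet.const _).union
      (MeasurableSet.iUnion fun a => MeasurableSet.iUnion fun b =>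
        (((m2 i a).inter (m2 j b)).inter (MeasurableSet.const _)).inter (m1 _))
  haveI : PolishSpace ((ℕ → Bool) × (ℕ → ℕ)) := ⟨⟩
  refine ⟨Kᶜ, hKm.compl.analyticSet, ?_⟩
  ext E
  simp only [Set.mem_setOf_eq, Set.mem_compl_iff, not_not]
  rw [clique_iff]
  rfl

theorem not_complete {C : Set (ℕ → Bool)} (hC : MeasurableSet C) : ¬ IsSigma12Complete C := by
  rintro ⟨_, h⟩
  obtain ⟨f, hf, he⟩ := h _ sigma_clique
  apply clique_not_measurable
  rw [he]
  exact hf.measurable hC

end Pool.Agent.R552.TRS
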